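import Pool.Agent.Helper63.P705.NR.Goals
import Pool.Agent.Helper53.PT.A

/-!
# MP_705522_gt, region near `p = 2`, packet GT3: assembly for `n ≥ 3`
-/

namespace Pool.Agent.Helper16.NR

open MeasureTheory Set Filter Topology
open Pool.Agent.Helper53.PT Pool.Agent.Helper63.P705.NR

theorem KJ_eq {θ : ℝ} {n : ℕ} (t : Fin n → ℝ) (i j : Fin n) (ξ : ℝ) :
    KJ θ t i j ξ = (de θ)⁻¹ * ((f1 θ (t i * ξ ^ 2) * f0 θ (t j * ξ ^ 2) -
      f0 θ (t i * ξ ^ 2) * f1 θ (t j * ξ ^ 2)) *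
        ∏ l ∈ (Finset.univ.erase i).erase j, f0 θ (t l * ξ ^ 2)) := by
  unfold KJ GG
  ring

/-- The main part of the integral. -/
theorem main_part {g : ℝ → ℝ} {a X : ℝ} (hX : 2.4 ≤ X) (hg : IntegrableOn g (Ioi 0))
    (hL : (1.09 : ℝ) ≤ ∫ ξ in (0 : ℝ)..2.4, ξ ^ 2 * Real.exp (-(ξ ^ 2) / 2)) (ha : 0 < a)
    (h0 : ∀ ξ, 0 ≤ ξ → ξ ≤ X → 0 ≤ g ξ)
    (h1 : ∀ ξ, 0 ≤ ξ → ξ ≤ 2.4 → a * (0.92 * 0.79) * (ξ ^ 2 * Real.exp (-(ξ ^ 2) / 2)) ≤ g ξ) :
    0.79 * a + ∫ ξ in Ioi X, g ξ ≤ ∫ ξ in Ioi (0 : ℝ), g ξ := by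
  have hX0 : (0 : ℝ) ≤ X := by linarith
  have e1 : ∫ ξ in Ioi (0 : ℝ), g ξ = (∫ ξ in Ioc (0 : ℝ) X, g ξ) + ∫ ξ in Ioi X, g ξ := by
    rw [← setIntegral_union (Set.Ioc_disjoint_Ioi le_rfl) measurableSet_Ioi
      (hg.mono_set (fun x hx => hx.1)) (hg.mono_set (fun x hx => lt_of_le_of_lt hX0 hx)),
      Set.Ioc_union_Ioi_eq_Ioi hX0]
  have i1 : IntegrableOn g (Ioc 0 2.4) := hg.mono_set (fun x hx => hx.1)
  have i2 : IntegrableOn g (Ioc 2.4 X) := hg.mono_set (fun x hx => lt_trans (by norm_num) hx.1)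
  have e2 : ∫ ξ in Ioc (0 : ℝ) X, g ξ = (∫ ξ in Ioc (0 : ℝ) 2.4, g ξ) + ∫ ξ in Ioc 2.4 X, g ξ := by
    rw [← setIntegral_union (Set.Ioc_disjoint_Ioc_of_le le_rfl) measurableSet_Ioc i1 i2,
      Set.Ioc_union_Ioc_eq_Ioc (by norm_num) hX]
  have h2 : 0 ≤ ∫ ξ in Ioc 2.4 X, g ξ := by
    apply setIntegral_nonneg measurableSet_Ioc
    intro ξ hξ
    exact h0 ξ (le_trans (by norm_num) hξ.1.le) hξ.2
  have hcont : Continuous (fun ξ : ℝ => a * (0.92 * 0.79) * (ξ ^ 2 * Real.exp (-(ξ ^ 2) / 2))) := by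
    fun_prop
  have h3 : ∫ ξ in Ioc (0 : ℝ) 2.4, a * (0.92 * 0.79) * (ξ ^ 2 * Real.exp (-(ξ ^ 2) / 2)) ≤
      ∫ ξ in Ioc (0 : ℝ) 2.4, g ξ := by
    apply setIntegral_mono_on _ i1 measurableSet_Ioc
    · intro ξ hξ
      exact h1 ξ hξ.1.le hξ.2
    · exact (hcont.integrableOn_Icc (a := 0) (b := 2.4)).mono_set Ioc_subset_Icc_self
  rw [← intervalIntegral.integral_of_le (by norm_num), intervalIntegral.integral_const_mul] at h3
  have h4 : a * (0.92 * 0.79) * 1.09 ≤ a * (0.92 * 0.79) *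
      ∫ ξ in (0 : ℝ)..2.4, ξ ^ 2 * Real.exp (-(ξ ^ 2) / 2) :=
    mul_le_mul_of_nonneg_left hL (by positivity)
  rw [e1, e2]
  have h5 : 0.79 * a ≤ a * (0.92 * 0.79) * 1.09 := by nlinarith
  linarith

theorem gT3 : Pool.Agent.Helper63.P705.NR.GT3 := by
  intro hK1 hK2 hK3 hL θ hN n hn t ht
  have hSx := ht.1
  have hnn : ∀ l, 0 ≤ t l := hSx.1
  have hne : Nonempty (Fin n) := ⟨⟨0, by omega⟩⟩
  obtain ⟨i, hi⟩ := Finite.exists_max t
  obtain ⟨j, hj⟩ := Finite.exists_min t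
  by_cases hij : t j = t i
  · intro l
    have hc : ∀ l', t l' = t l := by
      intro l'
      have h1 := hi l'
      have h2 := hj l'
      have h3 := hi l
      have h4 := hj l
      linarith
    have hs := hSx.2
    rw [Finset.sum_congr rfl (fun l' _ => hc l'), Finset.sum_const, Finset.card_univ,
      Fintype.card_fin, nsmul_eq_mul] at hs
    have hn0 : (n : ℝ) ≠ 0 := by
      have : 0 < n := by omega
      positivity
    field_simp
    linarith
  exfalso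
  have hlt : t j < t i := lt_of_le_of_ne (hj i) hij
  have hne : i ≠ j := by
    rintro rfl
    exact hij rfl
  have hth : (1 / 4 : ℝ) ≤ θ := by
    have := hN.th0
    norm_num at this ⊢
    linarith
  obtain ⟨hint, hK⟩ := (aDER hth hN.th1 n).2 t hSx ht.2 i j hlt
  have hde : 0 < de θ := by
    unfold de
    have := hN.th1
    linarith
  have hKJ : KJ θ t i j = fun ξ => (de θ)⁻¹ * ((f1 θ (t i * ξ ^ 2) * f0 θ (t j * ξ ^ 2) -
      f0 θ (t i * ξ ^ 2) * f1 θ (t j * ξ ^ 2)) *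
        ∏ l ∈ (Finset.univ.erase i).erase j, f0 θ (t l * ξ ^ 2)) :=
    funext fun ξ => KJ_eq t i j ξ
  have hKJi : IntegrableOn (KJ θ t i j) (Ioi 0) := by
    rw [hKJ]
    exact hint.const_mul _
  have hKJ0 : ∫ ξ in Ioi (0 : ℝ), KJ θ t i j ξ ≤ 0 := by
    rw [hKJ, integral_const_mul]
    exact mul_nonpos_of_nonneg_of_nonpos (inv_nonneg.mpr hde.le) hK
  have hd : 0 < t i - t j := sub_pos.mpr hlt
  have hone : ∀ m, m ≠ i → t m ≤ 1 / 2 := by
    intro m hm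
    have h1 : t m + t i ≤ ∑ l, t l := by
      have h2 : ({m, i} : Finset (Fin n)) ⊆ Finset.univ := Finset.subset_univ _
      have h3 := Finset.sum_le_sum_of_subset_of_nonneg h2 (fun l _ _ => hnn l)
      rwa [Finset.sum_pair hm] at h3
    rw [hSx.2] at h1
    have h4 := hi m
    linarith
  by_cases hall : ∃ m, m ≠ i ∧ m ≠ j ∧ 0 < t m
  · obtain ⟨m₀, hm₀i, hm₀j, hm₀⟩ := hall
    have hne' : ((Finset.univ.erase i).erase j).Nonempty := ⟨m₀, by simp [hm₀i, hm₀j]⟩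
    obtain ⟨m, hm, hmax⟩ := Finset.exists_max_image ((Finset.univ.erase i).erase j) t hne'
    have hmj : m ≠ j := (Finset.mem_erase.mp hm).1
    have hmi : m ≠ i := (Finset.mem_erase.mp (Finset.mem_erase.mp hm).2).1
    have hm0 : 0 < t m := lt_of_lt_of_le hm₀ (hmax m₀ (by simp [hm₀i, hm₀j]))
    have hmm : ∀ l, l ≠ i → t l ≤ t m := by
      intro l hl
      by_cases hlj : l = j
      · rw [hlj]; exact hj m
      · exact hmax l (by simp [hl, hlj])
    have hsq : 0 < √(t m) := Real.sqrt_pos.mpr hm0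
    have hsq2 : √(t m) ^ 2 = t m := Real.sq_sqrt hm0.le
    have hX : 2.4 ≤ 2.6 / √(t m) := by
      rw [le_div_iff₀ hsq]
      have h1 : √(t m) ≤ 1 := by
        have := hone m hmi
        nlinarith
      nlinarith
    have hX0 : 0 < 2.6 / √(t m) := by positivity
    have hint' : IntegrableOn (KJ θ t i j) (Ioi (2.6 / √(t m))) :=
      hKJi.mono_set (fun x hx => lt_trans hX0 hx)
    have htail : -(0.72 * (t i - t j)) ≤ ∫ ξ in Ioi (2.6 / √(t m)), KJ θ t i j ξ := by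
      rcases le_total (t j) (0.8 * t i) with h | h
      · exact hK2 θ hN n t hSx i j m hi hj hmi hmj hmm hm0 h hint'
      · exact hK3 θ hN n t hSx i j m hi hj hne hmi hmj hmm hm0 h hint'
    have hmain := main_part hX hKJi hL hd (fun ξ h0 h1 => by
      apply (hK1 θ hN n t hSx i j hi hj hlt ξ h0).1
      intro l hl
      have h2 : ξ * √(t m) ≤ 2.6 := by
        rw [le_div_iff₀ hsq] at h1
        exact h1
      have h3 : t m * ξ ^ 2 ≤ 6.76 := by
        rw [← hsq2]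
        have h4 : 0 ≤ ξ * √(t m) := by positivity
        nlinarith
      have h5 : t l * ξ ^ 2 ≤ t m * ξ ^ 2 := mul_le_mul_of_nonneg_right (hmm l hl) (sq_nonneg ξ)
      linarith) (fun ξ h0 h1 => (hK1 θ hN n t hSx i j hi hj hlt ξ h0).2 h1)
    linarith
  · push Not at hall
    have hz : ∀ l, l ≠ i → t l = 0 := by
      obtain ⟨m, hm⟩ : ∃ m : Fin n, m ≠ i ∧ m ≠ j := by
        have hcard : ((Finset.univ.erase i).erase j : Finset (Fin n)).Nonempty := by
          rw [← Finset.card_pos, Finset.card_erase_of_mem (by simp [hne.symm]),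
            Finset.card_erase_of_mem (Finset.mem_univ _), Finset.card_univ, Fintype.card_fin]
          omega
        obtain ⟨m, hm⟩ := hcard
        exact ⟨m, (Finset.mem_erase.mp (Finset.mem_erase.mp hm).2).1, (Finset.mem_erase.mp hm).1⟩
      have hm0 : t m ≤ 0 := hall m hm.1 hm.2
      have hj0 : t j = 0 := le_antisymm ((hj m).trans hm0) (hnn j)
      intro l hl
      by_cases hlj : l = j
      · rw [hlj]; exact hj0
      · exact le_antisymm (hall l hl hlj) (hnn l)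
    have hcond : ∀ ξ : ℝ, 0 ≤ ξ → 0 ≤ KJ θ t i j ξ := by
      intro ξ h0
      apply (hK1 θ hN n t hSx i j hi hj hlt ξ h0).1
      intro l hl
      rw [hz l hl, zero_mul]
      norm_num
    have hmain := main_part (le_refl (2.4 : ℝ)) hKJi hL hd (fun ξ h0 _ => hcond ξ h0)
      (fun ξ h0 h1 => (hK1 θ hN n t hSx i j hi hj hlt ξ h0).2 h1)
    have htail : 0 ≤ ∫ ξ in Ioi (2.4 : ℝ), KJ θ t i j ξ := by
      apply setIntegral_nonneg measurableSet_Ioi
      intro ξ hξ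
      exact hcond ξ (le_trans (by norm_num) (le_of_lt hξ))
    linarith

end Pool.Agent.Helper16.NR
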